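import Pool.Agent.H37.PT2.Defs

set_option autoImplicit false

open Finset

namespace Pool.PT2

theorem KHI_succ (l : ℕ) (f : (Fin (l + 1) → Bool) → ℝ) :
    ∑ ε, f ε = ∑ ε : Fin l → Bool,
      (f (Fin.cons true ε) + f (Fin.cons false ε)) := by
  rw [← (Fin.consEquiv (fun _ : Fin (l + 1) => Bool)).sum_comp f, Fintype.sum_prod_type,
    Fintype.sum_bool, ← Finset.sum_add_distrib]
  rfl

theorem KHI_sum (l : ℕ) (a : Fin (l + 1) → ℝ) (b : Bool) (ε : Fin l → Bool) :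
    ∑ i, sg ((Fin.cons b ε : Fin (l + 1) → Bool) i) * a i
      = sg b * a 0 + ∑ i, sg (ε i) * a i.succ := by
  rw [Fin.sum_univ_succ]
  simp

theorem KHI_two (l : ℕ) (a : Fin l → ℝ) :
    ∑ ε : Fin l → Bool, (∑ i, sg (ε i) * a i) ^ 2 = 2 ^ l * ∑ i, a i ^ 2 := by
  induction l with
  | zero => simp
  | succ l ih =>
    rw [KHI_succ]
    have h : ∀ ε : Fin l → Bool,
        (∑ i, sg ((Fin.cons true ε : Fin (l + 1) → Bool) i) * a i) ^ 2
          + (∑ i, sg ((Fin.cons false ε : Fin (l + 1) → Bool) i) * a i) ^ 2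
        = 2 * a 0 ^ 2 + 2 * (∑ i, sg (ε i) * a i.succ) ^ 2 := by
      intro ε
      rw [KHI_sum, KHI_sum]
      simp only [sg]
      simp
      ring
    rw [Finset.sum_congr rfl (fun ε _ => h ε), Finset.sum_add_distrib]
    have h2 : ∑ ε : Fin l → Bool, 2 * (∑ i, sg (ε i) * a i.succ) ^ 2
        = 2 * (2 ^ l * ∑ i : Fin l, a i.succ ^ 2) := by
      rw [← Finset.mul_sum, ih (fun i => a i.succ)]
    have h3 : ∑ _ε : Fin l → Bool, 2 * a 0 ^ 2 = 2 ^ l * (2 * a 0 ^ 2) := by simp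
    rw [h2, h3, Fin.sum_univ_succ]
    ring

theorem KHI_four (l : ℕ) (a : Fin l → ℝ) :
    ∑ ε : Fin l → Bool, (∑ i, sg (ε i) * a i) ^ 4 ≤ 2 ^ l * (3 * (∑ i, a i ^ 2) ^ 2) := by
  induction l with
  | zero => simp
  | succ l ih =>
    rw [KHI_succ]
    have h : ∀ ε : Fin l → Bool,
        (∑ i, sg ((Fin.cons true ε : Fin (l + 1) → Bool) i) * a i) ^ 4
          + (∑ i, sg ((Fin.cons false ε : Fin (l + 1) → Bool) i) * a i) ^ 4
        = 2 * a 0 ^ 4 + 12 * a 0 ^ 2 * (∑ i, sg (ε i) * a i.succ) ^ 2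
          + 2 * (∑ i, sg (ε i) * a i.succ) ^ 4 := by
      intro ε
      rw [KHI_sum, KHI_sum]
      simp only [sg]
      simp
      ring
    rw [Finset.sum_congr rfl (fun ε _ => h ε), Finset.sum_add_distrib, Finset.sum_add_distrib]
    have h2 : ∑ ε : Fin l → Bool, 12 * a 0 ^ 2 * (∑ i, sg (ε i) * a i.succ) ^ 2
        = 12 * a 0 ^ 2 * (2 ^ l * ∑ i : Fin l, a i.succ ^ 2) := by
      rw [← Finset.mul_sum, KHI_two l (fun i => a i.succ)]
    have h3 : ∑ ε : Fin l → Bool, 2 * (∑ i, sg (ε i) * a i.succ) ^ 4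
        = 2 * ∑ ε : Fin l → Bool, (∑ i, sg (ε i) * a i.succ) ^ 4 := by
      rw [← Finset.mul_sum]
    have h4 := ih (fun i => a i.succ)
    have hc : ∑ _ε : Fin l → Bool, 2 * a 0 ^ 4 = 2 ^ l * (2 * a 0 ^ 4) := by
      simp
    rw [h2, h3, hc, Fin.sum_univ_succ]
    set S := ∑ i : Fin l, a i.succ ^ 2
    have hS : 0 ≤ S := Finset.sum_nonneg fun i _ => sq_nonneg _
    have hp : (0 : ℝ) < 2 ^ l := by positivity
    have : (0 : ℝ) ≤ 2 ^ l * (4 * a 0 ^ 4) := by positivity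
    rw [pow_succ (2 : ℝ) l]
    nlinarith [mul_nonneg hp.le (by positivity : (0 : ℝ) ≤ a 0 ^ 4)]

theorem sKhi : SKhi := by
  intro l a
  set U := ∑ i, a i ^ 2 with hU
  have hU0 : 0 ≤ U := Finset.sum_nonneg fun i _ => sq_nonneg _
  rcases hU0.eq_or_lt with h0 | hpos
  · rw [← h0, Real.sqrt_zero, mul_zero]
    unfold avg
    exact div_nonneg (Finset.sum_nonneg fun ε _ => abs_nonneg _) (by positivity)
  · set u := √U with hu
    have hu0 : 0 < u := Real.sqrt_pos.2 hpos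
    have hu2 : u ^ 2 = U := Real.sq_sqrt hU0
    have hpt : ∀ s : ℝ, s ^ 2 / u - 4 / 27 * s ^ 4 / u ^ 3 ≤ |s| := by
      intro s
      have hs : s ^ 2 = |s| ^ 2 := (sq_abs s).symm
      have hs4 : s ^ 4 = |s| ^ 4 := by
        have : s ^ 4 = (s ^ 2) ^ 2 := by ring
        rw [this, hs]; ring
      rw [hs, hs4]
      set t := |s|
      have ht : 0 ≤ t := abs_nonneg s
      have key : 0 ≤ 4 / 27 * (t / u - 3 / 2) ^ 2 * (t / u + 3) * t := by positivity
      have e : t - (t ^ 2 / u - 4 / 27 * t ^ 4 / u ^ 3)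
          = 4 / 27 * (t / u - 3 / 2) ^ 2 * (t / u + 3) * t := by
        field_simp
        ring
      linarith
    have hsum : ∑ ε : Fin l → Bool, ((∑ i, sg (ε i) * a i) ^ 2 / u
        - 4 / 27 * (∑ i, sg (ε i) * a i) ^ 4 / u ^ 3)
        ≤ ∑ ε : Fin l → Bool, |∑ i, sg (ε i) * a i| :=
      Finset.sum_le_sum fun ε _ => hpt _
    have e2 : ∑ ε : Fin l → Bool, ((∑ i, sg (ε i) * a i) ^ 2 / u
        - 4 / 27 * (∑ i, sg (ε i) * a i) ^ 4 / u ^ 3)
        = (∑ ε : Fin l → Bool, (∑ i, sg (ε i) * a i) ^ 2) / u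
          - 4 / 27 * (∑ ε : Fin l → Bool, (∑ i, sg (ε i) * a i) ^ 4) / u ^ 3 := by
      rw [Finset.sum_sub_distrib, ← Finset.sum_div, ← Finset.sum_div, ← Finset.mul_sum]
    rw [e2, KHI_two] at hsum
    have h4 := KHI_four l a
    rw [← hU, ← hu2] at h4
    rw [← hU, ← hu2] at hsum
    have hp : (0 : ℝ) < 2 ^ l := by positivity
    have h5 : 4 / 27 * (∑ ε : Fin l → Bool, (∑ i, sg (ε i) * a i) ^ 4) / u ^ 3
        ≤ 2 ^ l * (4 / 9 * u) := by
      rw [div_le_iff₀ (by positivity)]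
      nlinarith [h4]
    have h6 : 2 ^ l * u ^ 2 / u = 2 ^ l * u := by
      field_simp
    rw [h6] at hsum
    unfold avg
    rw [le_div_iff₀ (by positivity)]
    have hcard : ((Fintype.card (Fin l → Bool) : ℕ) : ℝ) = 2 ^ l := by simp
    rw [hcard]
    have h7 : 0 < 2 ^ l * u := by positivity
    nlinarith

end Pool.PT2
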