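import Pool.Agent.H37.PT2.Defs

set_option autoImplicit false

open Finset

namespace Pool.PT2

theorem MNK_mink {q : ℝ} (hq : 1 ≤ q) {α β : Type} [Fintype β] (s : Finset α) (f : α → β → ℝ)
    (hf : ∀ a b, 0 ≤ f a b) :
    (∑ b, (∑ a ∈ s, f a b) ^ q) ^ (1 / q) ≤ ∑ a ∈ s, (∑ b, f a b ^ q) ^ (1 / q) := by
  classical
  have hq0 : 0 < q := by linarith
  induction s using Finset.induction_on with
  | empty =>
    simp only [Finset.sum_empty]
    rw [Real.zero_rpow hq0.ne', Finset.sum_const_zero, Real.zero_rpow (by positivity)]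
  | insert a s ha ih =>
    rw [Finset.sum_insert ha]
    simp only [Finset.sum_insert ha]
    refine (Real.Lp_add_le_of_nonneg (s := Finset.univ) (f := fun b => f a b)
      (g := fun b => ∑ c ∈ s, f c b) hq (fun i _ => hf a i)
      (fun i _ => Finset.sum_nonneg fun c _ => hf c i)).trans ?_
    exact add_le_add le_rfl ih

theorem sMnk : SMnk := by
  intro q hq k l
  have hq0 : 0 < q := by linarith
  refine ⟨?_, ?_⟩
  · intro α _ _ y
    have hn : (0 : ℝ) < Fintype.card α := by exact_mod_cast Fintype.card_pos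
    have h := MNK_mink hq (Finset.univ : Finset α) (fun a (j : Fin k) => |y a j|)
      (fun a j => abs_nonneg _)
    have e1 : lq q (fun j => avg (fun a => |y a j|))
        = (Fintype.card α : ℝ)⁻¹ * (∑ j : Fin k, (∑ a, |y a j|) ^ q) ^ (1 / q) := by
      unfold lq avg
      have h1 : ∀ j : Fin k, |(∑ a, |y a j|) / (Fintype.card α : ℝ)| ^ q
          = ((Fintype.card α : ℝ)⁻¹) ^ q * (∑ a, |y a j|) ^ q := by
        intro j
        have h0 : 0 ≤ ∑ a, |y a j| := Finset.sum_nonneg fun a _ => abs_nonneg _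
        rw [abs_of_nonneg (by positivity), div_eq_inv_mul, Real.mul_rpow (by positivity) h0]
      rw [Finset.sum_congr rfl (fun j _ => h1 j), ← Finset.mul_sum,
        Real.mul_rpow (by positivity)
          (Finset.sum_nonneg fun j _ => Real.rpow_nonneg
            (Finset.sum_nonneg fun a _ => abs_nonneg _) _),
        ← Real.rpow_mul (by positivity), mul_one_div_cancel hq0.ne', Real.rpow_one]
    rw [e1]
    have e2 : avg (fun a => lq q (y a))
        = (Fintype.card α : ℝ)⁻¹ * ∑ a, (∑ j : Fin k, |y a j| ^ q) ^ (1 / q) := by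
      unfold avg lq
      exact div_eq_inv_mul _ _
    rw [e2]
    exact mul_le_mul_of_nonneg_left h (inv_nonneg.2 hn.le)
  · intro m z hz
    exact MNK_mink hq (Finset.univ : Finset (Fin m)) z hz

end Pool.PT2
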