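import Pool.Agent.H37.PT2.Defs

set_option autoImplicit false

open Finset

namespace Pool.PT2

open scoped InnerProductSpace in
theorem sPrj : SPrj := by
  intro ι _ _ E
  let e : (ι → ℝ) ≃ₗ[ℝ] EuclideanSpace ℝ ι := (WithLp.linearEquiv 2 ℝ (ι → ℝ)).symm
  let F : Submodule ℝ (EuclideanSpace ℝ ι) := E.map (e : (ι → ℝ) →ₗ[ℝ] EuclideanSpace ℝ ι)
  let b : OrthonormalBasis ι ℝ (EuclideanSpace ℝ ι) := EuclideanSpace.basisFun ι ℝ
  let p := F.starProjection
  have hinner : ∀ (s : ι) (x : EuclideanSpace ℝ ι), ⟪b s, x⟫_ℝ = x s := by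
    intro s x
    have hb : b s = EuclideanSpace.single s (1 : ℝ) := by simp [b]
    rw [hb, EuclideanSpace.inner_single_left]
    simp
  have hmem : ∀ x : EuclideanSpace ℝ ι, p x ∈ F := by
    intro x
    show F.starProjection x ∈ F
    simp
  have hidem : ∀ x : EuclideanSpace ℝ ι, p (p x) = p x := fun x =>
    (Submodule.starProjection_eq_self_iff).2 (hmem x)
  have hsymm : ∀ x y : EuclideanSpace ℝ ι, ⟪p x, y⟫_ℝ = ⟪x, p y⟫_ℝ :=
    fun x y => Submodule.inner_starProjection_left_eq_right F x y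
  have hP : ∀ s t, (p (b t)) s = ⟪b s, p (b t)⟫_ℝ := fun s t => (hinner s _).symm
  have hdiag : ∀ s, (p (b s)) s = ‖p (b s)‖ ^ 2 := by
    intro s
    rw [hP, ← real_inner_self_eq_norm_sq, hsymm, hidem]
  refine ⟨fun s t => (p (b t)) s, ?_, ?_, ?_, ?_, ?_⟩
  · intro s
    obtain ⟨y, hy, hyx⟩ := Submodule.mem_map.1 (hmem (b s))
    have : (fun t => (p (b s)) t) = y := by
      funext t
      rw [← hyx]
      rfl
    rw [this]
    exact hy
  · intro s t
    show (p (b t)) s = (p (b s)) t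
    rw [hP, hP, ← hsymm, real_inner_comm]
  · intro s
    show ∑ t, (p (b t)) s ^ 2 = (p (b s)) s
    have h1 : ∀ t, (p (b t)) s = (p (b s)) t := by
      intro t
      rw [hP, hP, ← hsymm, real_inner_comm]
    simp only [h1]
    rw [hdiag, EuclideanSpace.norm_sq_eq]
    simp
  · intro s
    show (p (b s)) s ≤ 1
    rw [hdiag]
    have h1 : ‖p (b s)‖ ≤ ‖b s‖ := Submodule.norm_starProjection_apply_le F (b s)
    have h2 : ‖b s‖ = 1 := b.norm_eq_one s
    rw [h2] at h1
    nlinarith [norm_nonneg (p (b s))]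
  · show ∑ s, (p (b s)) s = (Module.finrank ℝ E : ℝ)
    have h1 : ∑ s, (p (b s)) s = LinearMap.trace ℝ (EuclideanSpace ℝ ι)
        (p : EuclideanSpace ℝ ι →ₗ[ℝ] EuclideanSpace ℝ ι) := by
      rw [LinearMap.trace_eq_sum_inner _ b]
      exact Finset.sum_congr rfl fun s _ => hP s s
    rw [h1]
    have hproj : LinearMap.IsProj F (p : EuclideanSpace ℝ ι →ₗ[ℝ] EuclideanSpace ℝ ι) :=
      ⟨fun x => hmem x, fun x hx => (Submodule.starProjection_eq_self_iff).2 hx⟩
    rw [hproj.trace]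
    norm_cast
    exact LinearEquiv.finrank_map_eq e E

end Pool.PT2
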